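import Pool.Agent.Helper4.HZ.Goals

set_option autoImplicit false

open Pool.Agent.Helper4.HZ

namespace Pool.Agent.Helper79.HZ

/-- solutions in the subgroup -/
def eqv {G : Type} [Group G] (H : Subgroup G) (k : H) :
    {q : H × H // q.1 ^ 2 = 1 ∧ q.2 ^ 3 = 1 ∧ q.1 * q.2 = k} ≃
      {q : G × G // (q.1 ^ 2 = 1 ∧ q.2 ^ 3 = 1 ∧ q.1 * q.2 = (k : G)) ∧ q.1 ∈ H ∧ q.2 ∈ H} where
  toFun q := ⟨(q.1.1, q.1.2), ⟨by
    have h1 := congrArg (fun x : H => (x : G)) q.2.1
    simpa using h1, by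
    have h1 := congrArg (fun x : H => (x : G)) q.2.2.1
    simpa using h1, by
    have h1 := congrArg (fun x : H => (x : G)) q.2.2.2
    simpa using h1⟩, q.1.1.2, q.1.2.2⟩
  invFun q := ⟨(⟨q.1.1, q.2.2.1⟩, ⟨q.1.2, q.2.2.2⟩), by
    apply Subtype.ext
    have h1 := q.2.1.1
    simpa using h1, by
    apply Subtype.ext
    have h1 := q.2.1.2.1
    simpa using h1, by
    apply Subtype.ext
    have h1 := q.2.1.2.2
    simpa using h1⟩
  left_inv q := by
    apply Subtype.ext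
    rfl
  right_inv q := by
    apply Subtype.ext
    rfl

theorem card_in (hB : S_BCB) (G : Type) [Group G] [Finite G] (i : ℕ)
    (hi : i.Coprime (Nat.card G)) (H : Subgroup G) (h : G) :
    Nat.card {q : G × G // (q.1 ^ 2 = 1 ∧ q.2 ^ 3 = 1 ∧ q.1 * q.2 = h ^ i) ∧ q.1 ∈ H ∧ q.2 ∈ H} =
      Nat.card {q : G × G // (q.1 ^ 2 = 1 ∧ q.2 ^ 3 = 1 ∧ q.1 * q.2 = h) ∧ q.1 ∈ H ∧ q.2 ∈ H} := by
  by_cases hh : h ∈ H
  · have hi' : i.Coprime (Nat.card H) :=
      Nat.Coprime.coprime_dvd_right (Subgroup.card_subgroup_dvd_card H) hi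
    have h1 := hB H i hi' ⟨h, hh⟩
    have h2 := Nat.card_congr (eqv H (⟨h, hh⟩ ^ i))
    have h3 := Nat.card_congr (eqv H ⟨h, hh⟩)
    rw [h2, h3] at h1
    simpa using h1
  · have hh' : h ^ i ∉ H := by
      intro hc
      have h1 : i.Coprime (orderOf h) :=
        Nat.Coprime.coprime_dvd_right (orderOf_dvd_natCard h) hi
      obtain ⟨m, hm⟩ := exists_pow_eq_self_of_coprime h1
      apply hh
      rw [← hm]
      exact H.pow_mem hc m
    have e1 : IsEmpty {q : G × G // (q.1 ^ 2 = 1 ∧ q.2 ^ 3 = 1 ∧ q.1 * q.2 = h ^ i) ∧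
        q.1 ∈ H ∧ q.2 ∈ H} := by
      constructor
      rintro ⟨q, ⟨_, _, h3⟩, h4, h5⟩
      apply hh'
      rw [← h3]
      exact H.mul_mem h4 h5
    have e2 : IsEmpty {q : G × G // (q.1 ^ 2 = 1 ∧ q.2 ^ 3 = 1 ∧ q.1 * q.2 = h) ∧
        q.1 ∈ H ∧ q.2 ∈ H} := by
      constructor
      rintro ⟨q, ⟨_, _, h3⟩, h4, h5⟩
      apply hh
      rw [← h3]
      exact H.mul_mem h4 h5
    rw [Nat.card_of_isEmpty, Nat.card_of_isEmpty]

open Classical in
theorem sum_fib (G : Type) [Group G] [Fintype G] [Fintype (Subgroup G)] (H : Subgroup G) (h : G) :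
    Nat.card {q : G × G // (q.1 ^ 2 = 1 ∧ q.2 ^ 3 = 1 ∧ q.1 * q.2 = h) ∧ q.1 ∈ H ∧ q.2 ∈ H} =
      ∑ K ∈ (Finset.univ : Finset (Subgroup G)).filter (fun K => K ≤ H),
        Nat.card {q : G × G // (q.1 ^ 2 = 1 ∧ q.2 ^ 3 = 1 ∧ q.1 * q.2 = h) ∧
          Subgroup.closure {q.1, q.2} = K} := by
  rw [Nat.card_eq_fintype_card, Fintype.card_subtype]
  rw [Finset.card_eq_sum_card_fiberwise (f := fun q : G × G => Subgroup.closure {q.1, q.2})
    (t := (Finset.univ : Finset (Subgroup G)).filter (fun K => K ≤ H))]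
  · apply Finset.sum_congr rfl
    intro K hK
    rw [Finset.mem_filter] at hK
    rw [Nat.card_eq_fintype_card, Fintype.card_subtype]
    congr 1
    ext q
    simp only [Finset.mem_filter, Finset.mem_univ, true_and]
    constructor
    · rintro ⟨⟨h1, _⟩, h2⟩
      exact ⟨h1, h2⟩
    · rintro ⟨h1, h2⟩
      refine ⟨⟨h1, ?_, ?_⟩, h2⟩
      · apply hK.2
        rw [← h2]
        exact Subgroup.subset_closure (by simp)
      · apply hK.2
        rw [← h2]
        exact Subgroup.subset_closure (by simp)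
  · intro q hq
    simp only [Finset.coe_filter, Finset.mem_univ, true_and, Set.mem_ofPred_eq] at hq ⊢
    rw [Subgroup.closure_le]
    intro z hz
    simp only [Set.mem_insert_iff, Set.mem_singleton_iff] at hz
    rcases hz with rfl | rfl
    · exact hq.2.1
    · exact hq.2.2

theorem gen_card (hB : S_BCB) (G : Type) [Group G] [Finite G] (i : ℕ)
    (hi : i.Coprime (Nat.card G)) (h : G) (H : Subgroup G) :
    Nat.card {q : G × G // (q.1 ^ 2 = 1 ∧ q.2 ^ 3 = 1 ∧ q.1 * q.2 = h ^ i) ∧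
          Subgroup.closure {q.1, q.2} = H} =
      Nat.card {q : G × G // (q.1 ^ 2 = 1 ∧ q.2 ^ 3 = 1 ∧ q.1 * q.2 = h) ∧
          Subgroup.closure {q.1, q.2} = H} := by
  classical
  have : Fintype G := Fintype.ofFinite G
  have : Fintype (Subgroup G) := Fintype.ofFinite _
  induction H using WellFoundedLT.induction with
  | ind H ih =>
    have h1 := card_in hB G i hi H h
    rw [sum_fib, sum_fib] at h1
    have hs : (Finset.univ : Finset (Subgroup G)).filter (fun K => K ≤ H) =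
        insert H ((Finset.univ : Finset (Subgroup G)).filter (fun K => K < H)) := by
      ext K
      simp only [Finset.mem_filter, Finset.mem_univ, true_and, Finset.mem_insert]
      exact le_iff_eq_or_lt
    have hn : H ∉ (Finset.univ : Finset (Subgroup G)).filter (fun K => K < H) := by
      simp
    rw [hs, Finset.sum_insert hn, Finset.sum_insert hn] at h1
    have h2 : ∑ K ∈ (Finset.univ : Finset (Subgroup G)).filter (fun K => K < H),
        Nat.card {q : G × G // (q.1 ^ 2 = 1 ∧ q.2 ^ 3 = 1 ∧ q.1 * q.2 = h ^ i) ∧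
          Subgroup.closure {q.1, q.2} = K} =
        ∑ K ∈ (Finset.univ : Finset (Subgroup G)).filter (fun K => K < H),
        Nat.card {q : G × G // (q.1 ^ 2 = 1 ∧ q.2 ^ 3 = 1 ∧ q.1 * q.2 = h) ∧
          Subgroup.closure {q.1, q.2} = K} := by
      apply Finset.sum_congr rfl
      intro K hK
      rw [Finset.mem_filter] at hK
      exact ih K hK.2
    rw [h2] at h1
    exact Nat.add_right_cancel h1

theorem BCC_holds (hB : S_BCB) : S_BCC := by
  intro G _ _ i hi x y hx hy hxy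
  have h1 := gen_card hB G i hi (x * y) ⊤
  have h2 : Nonempty {q : G × G // (q.1 ^ 2 = 1 ∧ q.2 ^ 3 = 1 ∧ q.1 * q.2 = x * y) ∧
      Subgroup.closure {q.1, q.2} = ⊤} := ⟨⟨(x, y), ⟨hx, hy, rfl⟩, hxy⟩⟩
  have h3 := Nat.card_pos (α := {q : G × G // (q.1 ^ 2 = 1 ∧ q.2 ^ 3 = 1 ∧
    q.1 * q.2 = x * y) ∧ Subgroup.closure {q.1, q.2} = ⊤})
  rw [← h1] at h3
  obtain ⟨⟨⟨q, ⟨h4, h5, h6⟩, h7⟩⟩, _⟩ := Nat.card_pos_iff.1 h3
  exact ⟨q.1, q.2, h4, h5, h7, h6⟩

end Pool.Agent.Helper79.HZ
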