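import Pool.Agent.Helper4.HZ.Goals

set_option autoImplicit false

open Pool.Agent.Helper4.HZ

namespace Pool.Agent.Helper79.HZ

theorem gl_mul_inv {p : ℕ} (g : Matrix.GeneralLinearGroup (Fin 2) (ZMod p)) :
    (g : Matrix (Fin 2) (Fin 2) (ZMod p)) * ((g⁻¹ : Matrix.GeneralLinearGroup (Fin 2) (ZMod p)) :
      Matrix (Fin 2) (Fin 2) (ZMod p)) = 1 := by
  exact Units.mul_inv g

theorem gl_inv_mul {p : ℕ} (g : Matrix.GeneralLinearGroup (Fin 2) (ZMod p)) :
    ((g⁻¹ : Matrix.GeneralLinearGroup (Fin 2) (ZMod p)) :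
      Matrix (Fin 2) (Fin 2) (ZMod p)) * (g : Matrix (Fin 2) (Fin 2) (ZMod p)) = 1 := by
  exact Units.inv_mul g

theorem gl_det {p : ℕ} (g : Matrix.GeneralLinearGroup (Fin 2) (ZMod p)) :
    (g : Matrix (Fin 2) (Fin 2) (ZMod p)).det *
      ((g⁻¹ : Matrix.GeneralLinearGroup (Fin 2) (ZMod p)) :
        Matrix (Fin 2) (Fin 2) (ZMod p)).det = 1 := by
  rw [← Matrix.det_mul, gl_mul_inv, Matrix.det_one]

def cjg {p : ℕ} (g : Matrix.GeneralLinearGroup (Fin 2) (ZMod p))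
    (A : Matrix.SpecialLinearGroup (Fin 2) (ZMod p)) :
    Matrix.SpecialLinearGroup (Fin 2) (ZMod p) :=
  ⟨(g : Matrix (Fin 2) (Fin 2) (ZMod p)) * A.1 *
    ((g⁻¹ : Matrix.GeneralLinearGroup (Fin 2) (ZMod p)) : Matrix (Fin 2) (Fin 2) (ZMod p)), by
    rw [Matrix.det_mul, Matrix.det_mul, A.2, mul_one, gl_det]⟩

def cmm {p : ℕ} (g h : Matrix.GeneralLinearGroup (Fin 2) (ZMod p)) :
    Matrix.SpecialLinearGroup (Fin 2) (ZMod p) :=
  ⟨(g : Matrix (Fin 2) (Fin 2) (ZMod p)) * (h : Matrix (Fin 2) (Fin 2) (ZMod p)) *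
    ((g⁻¹ : Matrix.GeneralLinearGroup (Fin 2) (ZMod p)) : Matrix (Fin 2) (Fin 2) (ZMod p)) *
    ((h⁻¹ : Matrix.GeneralLinearGroup (Fin 2) (ZMod p)) : Matrix (Fin 2) (Fin 2) (ZMod p)), by
    rw [Matrix.det_mul, Matrix.det_mul, Matrix.det_mul]
    calc _ = ((g : Matrix (Fin 2) (Fin 2) (ZMod p)).det *
        ((g⁻¹ : Matrix.GeneralLinearGroup (Fin 2) (ZMod p)) :
          Matrix (Fin 2) (Fin 2) (ZMod p)).det) *
        ((h : Matrix (Fin 2) (Fin 2) (ZMod p)).det *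
        ((h⁻¹ : Matrix.GeneralLinearGroup (Fin 2) (ZMod p)) :
          Matrix (Fin 2) (Fin 2) (ZMod p)).det) := by ring
      _ = 1 := by rw [gl_det, gl_det, one_mul]⟩

theorem cmm_comm {p : ℕ} (g h : Matrix.GeneralLinearGroup (Fin 2) (ZMod p))
    (A : Matrix.SpecialLinearGroup (Fin 2) (ZMod p)) :
    cjg g (cjg h A) * cmm g h = cmm g h * cjg h (cjg g A) := by
  apply Subtype.ext
  have e1 : (cjg g (cjg h A) * cmm g h).1 = (cjg g (cjg h A)).1 * (cmm g h).1 := rfl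
  have e2 : (cmm g h * cjg h (cjg g A)).1 = (cmm g h).1 * (cjg h (cjg g A)).1 := rfl
  rw [e1, e2]
  unfold cjg cmm
  simp only
  have g1 := gl_inv_mul g
  have h1 := gl_inv_mul h
  generalize (g : Matrix (Fin 2) (Fin 2) (ZMod p)) = G at *
  generalize (h : Matrix (Fin 2) (Fin 2) (ZMod p)) = H at *
  generalize ((g⁻¹ : Matrix.GeneralLinearGroup (Fin 2) (ZMod p)) :
    Matrix (Fin 2) (Fin 2) (ZMod p)) = G' at *
  generalize ((h⁻¹ : Matrix.GeneralLinearGroup (Fin 2) (ZMod p)) :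
    Matrix (Fin 2) (Fin 2) (ZMod p)) = H' at *
  calc G * (H * A.1 * H') * G' * (G * H * G' * H')
      = G * H * A.1 * H' * (G' * G) * H * G' * H' := by noncomm_ring
    _ = G * H * A.1 * (H' * H) * G' * H' := by rw [g1]; noncomm_ring
    _ = G * H * A.1 * G' * H' := by rw [h1]; noncomm_ring
    _ = G * H * (G' * G) * A.1 * G' * H' := by rw [g1]; noncomm_ring
    _ = G * H * G' * (H' * H) * G * A.1 * G' * H' := by rw [h1]; noncomm_ring
    _ = G * H * G' * H' * (H * (G * A.1 * G') * H') := by noncomm_ring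

theorem OUT_holds (hA : S_AUC) : S_OUT := by
  intro p _ φ ψ
  obtain ⟨g, hg⟩ := hA p φ
  obtain ⟨h, hh⟩ := hA p ψ
  have h1 : ∀ A, φ (QuotientGroup.mk A) = QuotientGroup.mk (cjg g A) := by
    intro A
    apply hg
    simp only [cjg]
    rw [mul_assoc, gl_inv_mul, mul_one]
  have h2 : ∀ A, ψ (QuotientGroup.mk A) = QuotientGroup.mk (cjg h A) := by
    intro A
    apply hh
    simp only [cjg]
    rw [mul_assoc, gl_inv_mul, mul_one]
  refine ⟨QuotientGroup.mk (cmm g h), ?_⟩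
  rw [mul_inv_eq_iff_eq_mul, mul_inv_eq_iff_eq_mul]
  ext x
  induction x using QuotientGroup.induction_on with
  | H A =>
    rw [MulAut.mul_apply, MulAut.mul_apply, MulAut.mul_apply, MulAut.conj_apply, h2, h1, h1, h2,
      eq_mul_inv_iff_mul_eq]
    exact congrArg (fun B : Matrix.SpecialLinearGroup (Fin 2) (ZMod p) =>
      (QuotientGroup.mk B : PSL2 p)) (cmm_comm g h A)

end Pool.Agent.Helper79.HZ
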